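import Mathlib
import Pool.Agent.Run7.h699.Flip.Main

set_option autoImplicit false

/-!
# An automorphism of `P(I)/Fin` which is not trivial on any uncountable set

The forcing is the forcing with finite partial functions from `I` to `2`. The automorphism sends
(the class of) the set named by `X` to the set of all `x` which belong to the evaluation of `X` by
the generic filter whose `x`-th bit has been flipped. A condition forcing that two names are equal
is not changed by the flip at `x` except for finitely many `x`, so this is well defined modulo
finite sets; it is its own inverse.
-/

namespace Pool.Agent.Results.MP_3937af_lc.NontrivialAutomorphism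

open Run7.h699.Flip Pool.Agent.Helper669.Forcing

/-- For every uncountable set `I` there is a forcing notion `P` such that in the extension by `P`
the set `I` is uncountable and there is an automorphism of `P(I)/Fin` which is not trivial on any
cocountable subset of `I`, and not trivial on any uncountable subset of `I`. -/
theorem result (I : Type) [Uncountable I] :
    ∃ (P : Type) (_ : PartialOrder P), Nonempty P ∧ ∀ p : P,
      p ∈ StaysUncountable P I ∧
      p ∈ fex fun R : (I → Set P) → (I → Set P) → Set P =>
        fand (IsAutomorphism R)
          (fand
            (fall fun A : I → Set P =>
              fimp (CountableSet (nCompl A)) (fnot (TrivialOn R A)))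
            (fall fun A : I → Set P =>
              fimp (fnot (CountableSet A)) (fnot (TrivialOn R A)))) := by
  refine ⟨Cond I, inferInstance, inferInstance, fun p => ⟨uncountable_ext p, ?_⟩⟩
  haveI : Nonempty I := by
    by_contra h
    rw [not_nonempty_iff] at h
    exact not_countable (α := I) inferInstance
  refine fex_intro Rel ?_ ⟨isAutomorphism p, fun A => not_trivial_co A p, fun A => not_trivial A p⟩
  refine down_fand ?_ (down_fand (down_fall fun _ => down_fimp _ _)
    (down_fall fun _ => down_fimp _ _))
  intro q _ r _
  exact isAutomorphism r

end Pool.Agent.Results.MP_3937af_lc.NontrivialAutomorphism
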